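import Mathlib.Analysis.SpecialFunctions.Pow.Deriv
import Mathlib.Analysis.SpecialFunctions.Trigonometric.Bounds
import Mathlib.Analysis.SpecialFunctions.Complex.Arg
import Mathlib.Analysis.Complex.Trigonometric
import Mathlib.Tactic

/-!
# The sharp argument bound for the classes `𝔥_α`, `0 < α < 2/3`, is `B(𝔥_α) = 1`

Let `b = α / (2 (1 - α))`, `β = b / 2` and `p(z) = (1 - z) ^ β + i κ z` with a small `κ > 0`. The
function `z p(z)` belongs to `𝔥_α`: with `1 - z = ρ e^{iφ}` the defining expression of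
`z (1 - z) ^ β` is at least a constant times `ρ ^ β`, and the extra term is at most a constant times
`κ |Im z| ≤ κ ρ`. As `z → 1` we have `p(z) → i κ`, hence `Arg (f(z)/z) → π / 2`.
-/

set_option autoImplicit false

open Complex Filter Topology

namespace Pool.Agent.Results.MP_84a0b9_an.ArgumentBound

/-- The class `𝔥_α`: holomorphic functions `f` on the open unit disk with `f(0) = 0`, `f'(0) = 1`,
`Re (f(z)/z) ≥ 0` (that is `f ∈ 𝒢₀`) and
`Re [α |z|² f(z)/z + (1 - α) (1 - |z|²) f'(z)] ≥ 0`. -/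
def HClass (α : ℝ) : Set (ℂ → ℂ) :=
  {f | DifferentiableOn ℂ f (Metric.ball 0 1) ∧ f 0 = 0 ∧ deriv f 0 = 1 ∧
    (∀ z : ℂ, ‖z‖ < 1 → z ≠ 0 → 0 ≤ (f z / z).re) ∧
    ∀ z : ℂ, ‖z‖ < 1 →
      0 ≤ (((α * ‖z‖ ^ 2 : ℝ) : ℂ) * (f z / z) +
        (((1 - α) * (1 - ‖z‖ ^ 2) : ℝ) : ℂ) * deriv f z).re}

/-- `B(𝒢₁) = (2/π) sup_{f ∈ 𝒢₁} sup_{z ∈ Δ} |Arg (f(z)/z)|` (at `z = 0` the quotient `f(z)/z` has the
value `1`, whose argument is `0`, so that the point `z = 0` can be left out). -/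
noncomputable def BConst (S : Set (ℂ → ℂ)) : ℝ :=
  2 / Real.pi * sSup {θ : ℝ | ∃ f ∈ S, ∃ z : ℂ, ‖z‖ < 1 ∧ z ≠ 0 ∧ θ = |Complex.arg (f z / z)|}

/-- The elementary inequality, `u = 2 cos φ - ρ`. -/
theorem elem {β φ ρ : ℝ} (hβ0 : 0 < β) (hβ1 : β < 1 / 2) (hφ : |φ| < Real.pi / 2) (hρ : 0 < ρ)
    (hu : 0 < 2 * Real.cos φ - ρ) :
    min (2 * β) (1 - β) * Real.cos (β * φ) ≤
      Real.cos (β * φ) * (4 * β + (1 - 3 * β) * (ρ * (2 * Real.cos φ - ρ))) -
        β * (2 * Real.cos φ - ρ) * Real.cos ((1 - β) * φ) := by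
  have hpi := Real.pi_pos
  set u := 2 * Real.cos φ - ρ with hudef
  have hC : Real.cos φ ≤ Real.cos (β * φ) := by
    rw [← Real.cos_abs φ, ← Real.cos_abs (β * φ), abs_mul, abs_of_pos hβ0]
    apply Real.cos_le_cos_of_nonneg_of_le_pi (by positivity) (by linarith)
    nlinarith [abs_nonneg φ]
  have hc0 : 0 < Real.cos φ := by
    rw [abs_lt] at hφ
    exact Real.cos_pos_of_mem_Ioo ⟨by linarith, hφ.2⟩
  have hCpos : 0 < Real.cos (β * φ) := lt_of_lt_of_le hc0 hC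
  have h1 : Real.cos ((1 - β) * φ) ≤ 1 := Real.cos_le_one _
  have h2 : u ≤ 2 * Real.cos (β * φ) := by linarith
  have h3 : β * u * Real.cos ((1 - β) * φ) ≤ β * (2 * Real.cos (β * φ)) := by
    calc β * u * Real.cos ((1 - β) * φ) ≤ β * u * 1 :=
          mul_le_mul_of_nonneg_left h1 (by positivity)
      _ ≤ β * (2 * Real.cos (β * φ)) := by
          rw [mul_one]; exact mul_le_mul_of_nonneg_left h2 hβ0.le
  have h4 : 0 < ρ * u := by positivity
  have h5 : ρ * u ≤ 1 := by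
    have : ρ * u ≤ Real.cos φ ^ 2 := by
      rw [hudef]
      nlinarith [sq_nonneg (ρ - Real.cos φ)]
    have h6 : Real.cos φ ^ 2 ≤ 1 := Real.cos_sq_le_one φ
    linarith
  have h6 : min (2 * β) (1 - β) ≤ 2 * β + (1 - 3 * β) * (ρ * u) := by
    rcases le_total (3 * β) 1 with h | h
    · apply (min_le_left _ _).trans
      have : 0 ≤ (1 - 3 * β) * (ρ * u) := mul_nonneg (by linarith) h4.le
      linarith
    · apply (min_le_right _ _).trans
      have : (1 - 3 * β) * 1 ≤ (1 - 3 * β) * (ρ * u) :=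
        mul_le_mul_of_nonpos_left h5 (by linarith)
      linarith
  have h7 := mul_le_mul_of_nonneg_right h6 hCpos.le
  linarith

/-- The test function. -/
noncomputable def F (β κ : ℝ) (z : ℂ) : ℂ := z * ((1 - z) ^ (β : ℂ) + I * κ * z)

theorem slit {z : ℂ} (hz : ‖z‖ < 1) : 0 < (1 - z).re := by
  have := (Complex.abs_re_le_norm z).trans_lt hz
  rw [abs_lt] at this
  simp only [Complex.sub_re, Complex.one_re]
  linarith

theorem hasDerivAt_F (β κ : ℝ) {z : ℂ} (hz : ‖z‖ < 1) :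
    HasDerivAt (F β κ) (((1 - z) ^ (β : ℂ) + I * κ * z) +
      z * (-β * (1 - z) ^ (β : ℂ) / (1 - z) + I * κ)) z := by
  have hs : (1 - z) ∈ Complex.slitPlane := Or.inl (slit hz)
  have hne : (1 - z) ≠ 0 := Complex.slitPlane_ne_zero hs
  have h1 : HasDerivAt (fun z : ℂ => 1 - z) (-1) z := by
    simpa using (hasDerivAt_id z).const_sub 1
  have h2 := h1.cpow_const (c := (β : ℂ)) hs
  have h3 : HasDerivAt (fun z : ℂ => I * κ * z) (I * κ) z := by
    simpa using (hasDerivAt_id z).const_mul (I * κ)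
  have h4 := (hasDerivAt_id z).mul (h2.add h3)
  refine h4.congr_deriv ?_
  simp only [id, Pi.add_apply]
  rw [Complex.cpow_sub _ _ hne, Complex.cpow_one]
  ring

/-- The test function belongs to the class. -/
theorem F_mem {α β κ : ℝ} (hα0 : 0 < α) (hα1 : α < 2 / 3) (hβ : 4 * β * (1 - α) = α)
    (hκ0 : 0 < κ) (hκ : 4 * κ ≤ min (2 * β) (1 - β) * Real.cos (β * (Real.pi / 2)))
    : F β κ ∈ HClass α := by
  have hpi := Real.pi_pos
  have hB : 0 < 1 - α := by linarith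
  have hβ0 : 0 < β := by
    by_contra h
    push Not at h
    nlinarith
  have hβ1 : β < 1 / 2 := by
    by_contra h
    push Not at h
    nlinarith
  have hmin0 : 0 < min (2 * β) (1 - β) := lt_min (by linarith) (by linarith)
  have hmin1 : min (2 * β) (1 - β) ≤ 1 := (min_le_right _ _).trans (by linarith)
  have hc1 : 0 < Real.cos (β * (Real.pi / 2)) :=
    Real.cos_pos_of_mem_Ioo ⟨by nlinarith, by nlinarith⟩
  have hκ' : 4 * κ ≤ Real.cos (β * (Real.pi / 2)) := by nlinarith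
  -- polar coordinates of `1 - z`
  have polar : ∀ z : ℂ, ‖z‖ < 1 → |Complex.arg (1 - z)| < Real.pi / 2 ∧ 0 < ‖1 - z‖ ∧
      ‖1 - z‖ ≤ 2 ∧ |z.im| ≤ ‖1 - z‖ ∧ ‖1 - z‖ * (2 * Real.cos (Complex.arg (1 - z)) - ‖1 - z‖) =
        1 - ‖z‖ ^ 2 ∧ ‖1 - z‖ ≤ 2 * ‖1 - z‖ ^ β ∧
      Real.cos (β * (Real.pi / 2)) ≤ Real.cos (β * Complex.arg (1 - z)) := by
    intro z hz
    have hre := slit hz
    have h1 : |Complex.arg (1 - z)| < Real.pi / 2 := Complex.abs_arg_lt_pi_div_two_iff.2 (Or.inl hre)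
    have hne : (1 - z) ≠ 0 := by
      intro h
      rw [h] at hre
      simp at hre
    have h2 : 0 < ‖1 - z‖ := norm_pos_iff.2 hne
    have h3 : ‖1 - z‖ ≤ 2 := by
      have := norm_sub_le (1 : ℂ) z
      rw [norm_one] at this
      linarith
    refine ⟨h1, h2, h3, ?_, ?_, ?_, ?_⟩
    · have := Complex.abs_im_le_norm (1 - z)
      simpa using this
    · have e1 : ‖1 - z‖ * Real.cos (Complex.arg (1 - z)) = (1 - z).re := Complex.norm_mul_cos_arg _
      have e2 : ‖1 - z‖ ^ 2 = (1 - z).re ^ 2 + (1 - z).im ^ 2 := by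
        rw [← Complex.normSq_eq_norm_sq, Complex.normSq_apply]; ring
      have e3 : ‖z‖ ^ 2 = z.re ^ 2 + z.im ^ 2 := by
        rw [← Complex.normSq_eq_norm_sq, Complex.normSq_apply]; ring
      have e4 : ‖1 - z‖ * (2 * Real.cos (Complex.arg (1 - z)) - ‖1 - z‖) =
        2 * (‖1 - z‖ * Real.cos (Complex.arg (1 - z))) - ‖1 - z‖ ^ 2 := by ring
      rw [e4, e1, e2, e3]
      simp only [Complex.sub_re, Complex.one_re, Complex.sub_im, Complex.one_im]
      ring
    · have e1 : ‖1 - z‖ = ‖1 - z‖ ^ (1 - β) * ‖1 - z‖ ^ β := by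
        rw [← Real.rpow_add h2]; simp
      have e2 : ‖1 - z‖ ^ (1 - β) ≤ 2 := by
        calc ‖1 - z‖ ^ (1 - β) ≤ 2 ^ (1 - β) :=
              Real.rpow_le_rpow h2.le h3 (by linarith)
          _ ≤ 2 ^ (1 : ℝ) := Real.rpow_le_rpow_of_exponent_le (by norm_num) (by linarith)
          _ = 2 := Real.rpow_one 2
      have e3 : 0 < ‖1 - z‖ ^ β := Real.rpow_pos_of_pos h2 β
      calc ‖1 - z‖ = ‖1 - z‖ ^ (1 - β) * ‖1 - z‖ ^ β := e1
        _ ≤ 2 * ‖1 - z‖ ^ β := mul_le_mul_of_nonneg_right e2 e3.le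
    · rw [← Real.cos_abs (β * Complex.arg (1 - z)), abs_mul, abs_of_pos hβ0]
      apply Real.cos_le_cos_of_nonneg_of_le_pi (by positivity) (by nlinarith)
      exact mul_le_mul_of_nonneg_left h1.le hβ0.le
  have hdiv : ∀ z : ℂ, z ≠ 0 → F β κ z / z = (1 - z) ^ (β : ℂ) + I * κ * z := by
    intro z hz
    rw [F, mul_div_cancel_left₀ _ hz]
  refine ⟨?_, ?_, ?_, ?_, ?_⟩
  · intro z hz
    exact (hasDerivAt_F β κ (by simpa using hz)).differentiableAt.differentiableWithinAt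
  · simp [F]
  · rw [(hasDerivAt_F β κ (by simp : ‖(0 : ℂ)‖ < 1)).deriv]
    simp
  · intro z hz hz0
    obtain ⟨h1, h2, h3, h4, h5, h6, h7⟩ := polar z hz
    rw [hdiv z hz0, Complex.add_re, Complex.cpow_ofReal_re, mul_comm (Complex.arg (1 - z)) β]
    have e1 : (I * κ * z).re = -(κ * z.im) := by simp
    rw [e1]
    have h8 : 0 < ‖1 - z‖ ^ β := Real.rpow_pos_of_pos h2 β
    have h9 : z.im ≤ 2 * ‖1 - z‖ ^ β := (le_abs_self _).trans (h4.trans h6)
    have h10 : κ * z.im ≤ κ * (2 * ‖1 - z‖ ^ β) := mul_le_mul_of_nonneg_left h9 hκ0.le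
    have h11 : ‖1 - z‖ ^ β * Real.cos (β * (Real.pi / 2)) ≤
        ‖1 - z‖ ^ β * Real.cos (β * Complex.arg (1 - z)) := mul_le_mul_of_nonneg_left h7 h8.le
    have h12 : ‖1 - z‖ ^ β * (4 * κ) ≤ ‖1 - z‖ ^ β * Real.cos (β * (Real.pi / 2)) :=
      mul_le_mul_of_nonneg_left hκ' h8.le
    have h13 : 0 < κ * ‖1 - z‖ ^ β := by positivity
    nlinarith
  · intro z hz
    obtain ⟨h1, h2, h3, h4, h5, h6, h7⟩ := polar z hz
    have hne : (1 - z) ≠ 0 := norm_pos_iff.1 h2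
    have hr1 : 0 < 1 - ‖z‖ ^ 2 := by nlinarith [norm_nonneg z]
    set r2 := ‖z‖ ^ 2 with hr2
    set P := (1 - z) ^ (β : ℂ) with hP
    -- the quotient can be simplified also at `z = 0`
    have hq : (((α * r2 : ℝ) : ℂ) * (F β κ z / z)) = ((α * r2 : ℝ) : ℂ) * (P + I * κ * z) := by
      rcases eq_or_ne z 0 with rfl | hz0
      · simp [hr2]
      · rw [hdiv z hz0]
    rw [hq, (hasDerivAt_F β κ hz).deriv]
    -- split the expression
    have e1 : (((α * r2 : ℝ) : ℂ) * (P + I * κ * z) + (((1 - α) * (1 - r2) : ℝ) : ℂ) *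
        ((P + I * κ * z) + z * (-β * P / (1 - z) + I * κ))) =
        ((α * r2 + (1 - α) * (1 - r2) * (1 + β) : ℝ) : ℂ) * P -
          (((1 - α) * (1 - r2) * β : ℝ) : ℂ) * (P / (1 - z)) +
          ((κ * (α * r2 + 2 * (1 - α) * (1 - r2)) : ℝ) : ℂ) * (I * z) := by
      push_cast
      field_simp
      ring
    rw [e1, Complex.add_re, Complex.sub_re, Complex.re_ofReal_mul, Complex.re_ofReal_mul,
      Complex.re_ofReal_mul]
    have e2 : P.re = ‖1 - z‖ ^ β * Real.cos (β * Complex.arg (1 - z)) := by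
      rw [hP, Complex.cpow_ofReal_re, mul_comm β]
    have e3 : (P / (1 - z)).re =
        ‖1 - z‖ ^ β / ‖1 - z‖ * Real.cos ((1 - β) * Complex.arg (1 - z)) := by
      have : P / (1 - z) = (1 - z) ^ ((β - 1 : ℝ) : ℂ) := by
        push_cast
        rw [Complex.cpow_sub _ _ hne, Complex.cpow_one]
      rw [this, Complex.cpow_ofReal_re, Real.rpow_sub h2, Real.rpow_one]
      congr 1
      rw [← Real.cos_neg]
      congr 1
      ring
    have e4 : (I * z).re = -z.im := by simp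
    rw [e2, e3, e4]
    set ρ := ‖1 - z‖ with hρ
    set φ := Complex.arg (1 - z) with hφ
    have hu : 0 < 2 * Real.cos φ - ρ := by
      by_contra h
      push Not at h
      nlinarith
    have helem := elem hβ0 hβ1 h1 h2 hu
    have hρβ : 0 < ρ ^ β := Real.rpow_pos_of_pos h2 β
    set u := 2 * Real.cos φ - ρ with hudef
    have hr2' : r2 = 1 - ρ * u := by linarith
    have e5 : (α * r2 + (1 - α) * (1 - r2) * (1 + β)) * (ρ ^ β * Real.cos (β * φ)) -
        (1 - α) * (1 - r2) * β * (ρ ^ β / ρ * Real.cos ((1 - β) * φ)) =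
        (1 - α) * ρ ^ β * (Real.cos (β * φ) * (4 * β + (1 - 3 * β) * (ρ * u)) -
          β * u * Real.cos ((1 - β) * φ)) := by
      have hq1 : ρ ^ β / ρ * ρ = ρ ^ β := div_mul_cancel₀ _ h2.ne'
      rw [hr2']
      linear_combination (-(ρ ^ β * Real.cos (β * φ) * (1 - ρ * u))) * hβ +
        (-((1 - α) * β * u * Real.cos ((1 - β) * φ))) * hq1
    rw [e5]
    have h8 : (1 - α) * ρ ^ β * (min (2 * β) (1 - β) * Real.cos (β * (Real.pi / 2))) ≤
        (1 - α) * ρ ^ β * (Real.cos (β * φ) * (4 * β + (1 - 3 * β) * (ρ * u)) -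
          β * u * Real.cos ((1 - β) * φ)) := by
      apply mul_le_mul_of_nonneg_left _ (by positivity)
      refine le_trans ?_ helem
      exact mul_le_mul_of_nonneg_left h7 hmin0.le
    have h9 : (1 - α) * ρ ^ β * (4 * κ) ≤
        (1 - α) * ρ ^ β * (min (2 * β) (1 - β) * Real.cos (β * (Real.pi / 2))) :=
      mul_le_mul_of_nonneg_left hκ (by positivity)
    have h10 : z.im ≤ 2 * ρ ^ β := (le_abs_self _).trans (h4.trans h6)
    have h11 : 0 ≤ α * r2 + 2 * (1 - α) * (1 - r2) := by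
      have : 0 ≤ r2 := by positivity
      positivity
    have h12 : α * r2 + 2 * (1 - α) * (1 - r2) ≤ 2 * (1 - α) := by
      have hr0 : 0 ≤ r2 := by positivity
      have : α ≤ 2 * (1 - α) := by linarith
      nlinarith
    have h13 : κ * (α * r2 + 2 * (1 - α) * (1 - r2)) * z.im ≤ κ * (2 * (1 - α)) * (2 * ρ ^ β) := by
      calc κ * (α * r2 + 2 * (1 - α) * (1 - r2)) * z.im
          ≤ κ * (α * r2 + 2 * (1 - α) * (1 - r2)) * (2 * ρ ^ β) :=
            mul_le_mul_of_nonneg_left h10 (by positivity)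
        _ ≤ κ * (2 * (1 - α)) * (2 * ρ ^ β) := by
            apply mul_le_mul_of_nonneg_right _ (by positivity)
            exact mul_le_mul_of_nonneg_left h12 hκ0.le
    have h14 : κ * (2 * (1 - α)) * (2 * ρ ^ β) = (1 - α) * ρ ^ β * (4 * κ) := by ring
    have h15 : κ * (α * r2 + 2 * (1 - α) * (1 - r2)) * -z.im =
        -(κ * (α * r2 + 2 * (1 - α) * (1 - r2)) * z.im) := by ring
    rw [h15]
    linarith

/-- **The sharp argument bound: `B(𝔥_α) = 1` for every `α ∈ (0, 2/3)`.** -/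
theorem result : ∀ α : ℝ, 0 < α → α < 2 / 3 → BConst (HClass α) = 1 := by
  intro α hα0 hα1
  have hpi := Real.pi_pos
  have hB : 0 < 1 - α := by linarith
  set β : ℝ := α / (4 * (1 - α)) with hβdef
  have hβ : 4 * β * (1 - α) = α := by rw [hβdef]; field_simp
  have hβ0 : 0 < β := by positivity
  have hβ1 : β < 1 / 2 := by
    rw [hβdef, div_lt_iff₀ (by positivity)]
    linarith
  have hc1 : 0 < Real.cos (β * (Real.pi / 2)) :=
    Real.cos_pos_of_mem_Ioo ⟨by nlinarith, by nlinarith⟩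
  have hmin0 : 0 < min (2 * β) (1 - β) := lt_min (by linarith) (by linarith)
  set κ : ℝ := min (2 * β) (1 - β) * Real.cos (β * (Real.pi / 2)) / 4 with hκdef
  have hκ0 : 0 < κ := by positivity
  have hmem : F β κ ∈ HClass α := F_mem hα0 hα1 hβ hκ0 (by rw [hκdef]; linarith)
  have hle : ∀ θ ∈ {θ : ℝ | ∃ f ∈ HClass α, ∃ z : ℂ, ‖z‖ < 1 ∧ z ≠ 0 ∧
      θ = |Complex.arg (f z / z)|}, θ ≤ Real.pi / 2 := by
    rintro θ ⟨f, hf, z, hz, hz0, rfl⟩
    exact Complex.abs_arg_le_pi_div_two_iff.2 (hf.2.2.2.1 z hz hz0)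
  have hx0 : ∀ x : ℝ, 0 < x → x < 1 → |Complex.arg ((1 - (x : ℂ)) ^ (β : ℂ) + I * κ * x)| ≤
      sSup {θ : ℝ | ∃ f ∈ HClass α, ∃ z : ℂ, ‖z‖ < 1 ∧ z ≠ 0 ∧
        θ = |Complex.arg (f z / z)|} := by
    intro x hx0 hx1
    apply le_csSup ⟨_, hle⟩
    refine ⟨F β κ, hmem, x, ?_, ?_, ?_⟩
    · rw [Complex.norm_real, Real.norm_of_nonneg hx0.le]; exact hx1
    · exact_mod_cast hx0.ne'
    · have : (x : ℂ) ≠ 0 := by exact_mod_cast hx0.ne'
      rw [F, mul_div_cancel_left₀ _ this]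
  have hlim : Tendsto (fun x : ℝ => |Complex.arg ((1 - (x : ℂ)) ^ (β : ℂ) + I * κ * x)|)
      (𝓝[<] 1) (𝓝 (Real.pi / 2)) := by
    have h1 : ContinuousAt (fun x : ℝ => ((((1 - x) ^ β : ℝ) : ℂ) + I * κ * x)) 1 := by
      have : ContinuousAt (fun x : ℝ => (1 - x) ^ β) 1 := by
        apply ContinuousAt.rpow_const
        · fun_prop
        · right; exact hβ0.le
      fun_prop
    have h2 : Tendsto (fun x : ℝ => ((((1 - x) ^ β : ℝ) : ℂ) + I * κ * x)) (𝓝[<] 1)
        (𝓝 (I * κ)) := by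
      have h3 := h1.tendsto.mono_left (nhdsWithin_le_nhds (s := Set.Iio (1 : ℝ)))
      have e : ((((1 - (1 : ℝ)) ^ β : ℝ) : ℂ) + I * κ * ((1 : ℝ) : ℂ)) = I * κ := by
        rw [sub_self, Real.zero_rpow hβ0.ne']
        simp
      rwa [e] at h3
    have h3 : (I * κ : ℂ) ∈ Complex.slitPlane := by
      right
      simpa using hκ0.ne'
    have h4 := (Complex.continuousAt_arg h3).tendsto.comp h2
    have h5 : Complex.arg (I * κ) = Real.pi / 2 := by
      rw [mul_comm, Complex.arg_real_mul _ hκ0, Complex.arg_I]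
    rw [h5] at h4
    have h6 := h4.abs
    rw [abs_of_pos (by positivity : 0 < Real.pi / 2)] at h6
    refine h6.congr' ?_
    filter_upwards [self_mem_nhdsWithin] with x hx
    simp only [Function.comp_apply]
    have hx' : 0 ≤ 1 - x := by
      have : x < 1 := hx
      linarith
    rw [Complex.ofReal_cpow hx']
    push_cast
    rfl
  have hge : Real.pi / 2 ≤ sSup {θ : ℝ | ∃ f ∈ HClass α, ∃ z : ℂ, ‖z‖ < 1 ∧ z ≠ 0 ∧
        θ = |Complex.arg (f z / z)|} := by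
    apply le_of_tendsto hlim
    have h1 : ∀ᶠ x : ℝ in 𝓝[<] 1, 0 < x := nhdsWithin_le_nhds (lt_mem_nhds one_pos)
    filter_upwards [h1, self_mem_nhdsWithin] with x hx hx1
    exact hx0 x hx hx1
  have heq : sSup {θ : ℝ | ∃ f ∈ HClass α, ∃ z : ℂ, ‖z‖ < 1 ∧ z ≠ 0 ∧
        θ = |Complex.arg (f z / z)|} = Real.pi / 2 := by
    apply le_antisymm _ hge
    apply Real.sSup_le hle (by positivity)
  rw [BConst, heq]
  field_simp

end Pool.Agent.Results.MP_84a0b9_an.ArgumentBound
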